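import Pool.Agent.NH65.CX.Blk
import Pool.Agent.NH65.CX.Tab

/-!
# The flag complex inequality with Coxeter edge weights for colourwise barycentric subdivisions

Let `X` be a finite simplicial complex, the vertices of which are coloured by `k` colours. The vertices of the graph
`cs X col` are the nonempty simplices of `X` with all vertices of the same colour; two of them are adjacent if their
union is a simplex of `X` and, in the case that they have the same colour, one of them contains the other. Let `S` be
the flag complex of this graph: it is the colourwise barycentric subdivision of `X` if the latter is a flag complex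
(always for `k ≤ 2`, or if `X` is a flag complex). For one colour this is the barycentric subdivision, for a proper
colouring of a flag complex `S = X`.

`HSph (2 * m) G`: the flag complex of `G` is a homology manifold with the homology of the `(2 m - 1)`-sphere over the
reals. `Mod2 (2 * m) (cs X col)` holds if `S` is a homology sphere over the field with two elements as well. So both
conditions hold if `S` is a generalized homology `(2 m - 1)`-sphere. `chiW G = ∑ (-1/2)^|T|` is the right-angled
quantity and `omegaN G M = ∑ (-1)^|T| / M T` (both sums over the cliques `T` of `G`) the weighted one.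

`CoxOrders G w M` says that `w` is a system of Coxeter weights for which all the groups `W_T` are finite and that
`M T` is the order of `W_T`. Here the finite Coxeter groups enter by their classification: each clique `T` with at
least three elements which is connected by edges of weight at least `3` is a Coxeter diagram of the type `A_n`, `B_n`,
`D_n`, `E_6`, `E_7`, `E_8`, `F_4`, `H_3` or `H_4`, and the orders of its parabolic subgroups are the known ones. No
property of these numbers is assumed; the sign of the Charney–Davis quantity of the Coxeter complexes is proved in
`Pool/Agent/NH65/CX/NumD.lean` (the generating functions are `2 tanh (x/2)` for `A`, `sech (x/2)` for `B` and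
`2 sech (x/2) - 2 + (x/2) tanh (x/2)` for `D`).

Let the colours be divided into blocks such that the edges of `S` between simplices with colours in different blocks
have weight `2`. Let `p c` be the maximal number of vertices of the colour `c` in a simplex of `X`. The block `B` with
`b` colours contributes `odds = b` if `b` is congruent modulo 2 to the sum of the `p c` for the colours in `B`, and
`b - 1` if not. The condition is `∑ p c + ∑ odds ≤ 2 m + 2`.

Proof. The weighted quantity is the sum of the quantities of Charney and Davis of the links of the cliques `T` with
coefficients of the right sign, which vanish if `|T|` is odd, or if `T` has a part with an odd number of elements all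
edges of which to the other elements of `T` have weight 2. So only the cliques with an even number `t B` of elements
in each block matter. In the link of `T` one removes the elements which have ℓ²-acyclic lower links; the other elements
can be properly coloured by `∑ ⌈(p c - t c) / 2⌉` colours, and this number is at most `l + 1`, if `2 l` is the number
of vertices of the facets of the link. The link is contained in a homology sphere of dimension `2 l` mod 2, and a van
Kampen type theorem shows that the ℓ²-homology of the link vanishes in the degrees above `l`; duality gives the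
vanishing of all but the middle ℓ²-Betti number.
-/

set_option autoImplicit false

namespace Pool.Agent.Results.MP_375bfa_co.ColouredSubdivisions

open Finset Pool.Agent.W907.SG Pool.Agent.R782.Bal Pool.Agent.NH65.CX
open Pool.Agent.TH652.Above (HSph)
open Pool.Agent.R703.CW (omegaN)

/-- **The inequality with Coxeter weights for colourwise barycentric subdivisions.** Let `X` be a simplicial complex
with vertices coloured by `k` colours, and let `S` be the flag complex of `cs X col` (the colourwise barycentric
subdivision of `X`, if this is a flag complex), a homology sphere of dimension `2 m - 1` over the reals and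
contained in a homology sphere of dimension at most `2 m` over the field with two elements. Let `w` be edge weights of
`S` for which all the Coxeter groups `W_T` of the simplices are finite, and `M T` the order of `W_T`.

(1) Let the colours be divided into blocks by `β`, let `w` be `2` on the edges between different blocks, and let each
simplex of `X` have at most `p c` vertices of the colour `c`, where `∑ p c + ∑ odds ≤ 2 m + 2`. Then
`(-1)^m ω(S) ≥ (-1)^m χ(S) ≥ 0`, where `χ(S)` is the right-angled quantity.

(2) The first of these inequalities holds if the condition on the sizes is only satisfied in the star of each vertex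
of `X` (with numbers `p c` depending on the vertex).

(3) The case of all Coxeter weights: `(-1)^m ω(S) ≥ (-1)^m χ(S) ≥ 0` if there are at most three colours and
`∑ p c = 2 m` (for example, if `X` has dimension `2 m - 1` and each facet of `X` has exactly `p c` vertices of the
colour `c`), or if there are at most two colours and `∑ p c ≤ 2 m + 1`. -/
theorem result (m N k : ℕ) (X : Finset (Finset (Fin N))) (col : Fin N → Fin k)
    (hX : ∀ σ ∈ X, ∀ τ : Finset (Fin N), τ ⊆ σ → τ ∈ X)
    [Fintype (MF X col)] [LinearOrder (MF X col)] (hS : HSph (2 * m) (cs X col)) (hS2 : Mod2 (2 * m) (cs X col))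
    (w : Finset (MF X col) → ℕ) (M : Finset (MF X col) → ℚ) (hN : CoxOrders (cs X col) w M) :
    (∀ (r : ℕ) (β : Fin k → Fin r) (p : Fin k → ℕ),
      (∀ σ τ, (cs X col).Adj σ τ → β (mc σ) ≠ β (mc τ) → w {σ, τ} = 2) →
      (∀ F ∈ X, ∀ c, (F.filter (fun u => col u = c)).card ≤ p c) → ∑ c, p c + ∑ B, odds β p B ≤ 2 * m + 2 →
      0 ≤ (-1 : ℚ) ^ m * chiW (cs X col) ∧ (-1) ^ m * chiW (cs X col) ≤ (-1) ^ m * omegaN (cs X col) M) ∧
    (∀ (r : ℕ) (β : Fin k → Fin r),
      (∀ σ τ, (cs X col).Adj σ τ → β (mc σ) ≠ β (mc τ) → w {σ, τ} = 2) →
      (∀ v, {v} ∈ X → ∃ p : Fin k → ℕ, (∀ F ∈ X, v ∈ F → ∀ c, (F.filter (fun u => col u = c)).card ≤ p c) ∧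
        ∑ c, p c + ∑ B, odds β p B ≤ 2 * m + 2) →
      (-1) ^ m * chiW (cs X col) ≤ (-1) ^ m * omegaN (cs X col) M) ∧
    (∀ p : Fin k → ℕ, (∀ F ∈ X, ∀ c, (F.filter (fun u => col u = c)).card ≤ p c) →
      (k ≤ 3 ∧ ∑ c, p c = 2 * m) ∨ (k ≤ 2 ∧ ∑ c, p c ≤ 2 * m + 1) →
      0 ≤ (-1 : ℚ) ^ m * chiW (cs X col) ∧ (-1) ^ m * chiW (cs X col) ≤ (-1) ^ m * omegaN (cs X col) M) := by
  have h1 : ∀ (r : ℕ) (β : Fin k → Fin r) (p : Fin k → ℕ),
      (∀ σ τ, (cs X col).Adj σ τ → β (mc σ) ≠ β (mc τ) → w {σ, τ} = 2) →
      (∀ F ∈ X, ∀ c, (F.filter (fun u => col u = c)).card ≤ p c) → ∑ c, p c + ∑ B, odds β p B ≤ 2 * m + 2 →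
      0 ≤ (-1 : ℚ) ^ m * chiW (cs X col) ∧ (-1) ^ m * chiW (cs X col) ≤ (-1) ^ m * omegaN (cs X col) M :=
    fun r β p hw hp1 hp2 => ⟨ra_blocks β hX hS hS2 p hp1 hp2,
      compare_blocks β hX hS hS2 (fun v _ => ⟨p, fun F hF _ c => hp1 F hF c, hp2⟩) w M hN.orders hw⟩
  refine ⟨h1, fun r β hw hp => compare_blocks β hX hS hS2 hp w M hN.orders hw, fun p hp h => ?_⟩
  refine h1 1 (fun _ => 0) p (fun σ τ _ h => absurd rfl h) hp ?_
  have e : (univ.filter (fun _ : Fin k => (0 : Fin 1) = 0)) = univ := filter_true_of_mem fun _ _ => rfl
  rw [Fin.sum_univ_one, odds, e, card_univ, Fintype.card_fin]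
  omega

end Pool.Agent.Results.MP_375bfa_co.ColouredSubdivisions
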