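import Pool.Agent.NH63.CD.Sph

set_option autoImplicit false

/-!
# The Charney-Davis inequality for flag complexes with large links or many edges

Let `f j` be the number of faces with `j` vertices of a flag homology `(2 m - 1)`-sphere `S`, or of a
flag Eulerian complex of rank `2 m` (this includes all closed flag homology manifolds of dimension
`2 m - 1`), `m ≥ 2`, and let `n = f 1`. Suppose that for some `s` with `1 ≤ s ≤ m - 1` the links of
the faces with `s` vertices have on average at least `((m - 1 - s) n + s D) / (m - 1)` vertices,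
where `D = m (m + 3)` if `3 s ≤ 2 m` or if `3 s ≤ 2 m + 3` and `s + m` is odd (for `m ≤ 6` these are
all `s ≤ m - 1`), and `D = 2 ^ (m + 1) m ^ 2` otherwise. Then `(-1)^m ω(S) ≥ 0`.

For `s = m - 1` the condition is `m f m ≥ D f (m - 1)`: the links of the faces with `m - 1` vertices
(they are flag `m`-spheres) have on average at least `D` vertices, where `D = m (m + 3)` for `m ≤ 6`
and `D = 2 ^ (m + 1) m ^ 2` for `m ≥ 7` do not depend on the number of vertices of `S`.

For `s = 1` it says that `S` has at least `(1 - 1 / (m - 1)) n ^ 2 / 2 + m (m + 3) n / (2 (m - 1))`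
edges. The constant `1 - 1 / (m - 1)` is the Turán density of the complete graph on `m` vertices.

Proof. `(-4)^m ω(S)` is the alternating sum of the terms `t j = c(m, j) f j`, `0 ≤ j ≤ m`, where
`c(m, j) = C(2 m - j, m) + 2 C(2 m - j, m + 1) + 2 C(2 m - j, m + 2) + ...`. For `3 j ≤ 2 m` one has
`t (j - 1) ≤ t j` since the link of a face with `j - 1` vertices has at least `2 (2 m - j + 1)`
vertices and `j c(m, j - 1) ≤ 2 (2 m - j + 1) c(m, j)`; for `j > s` since the inequality of Moon and
Moser for the numbers of cliques gives `j f j ≥ m (m + 3) f (j - 1)`, and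
`c(m, j - 1) ≤ (m + 3) c(m, j)`. In the remaining cases the last term is larger than the sum of the
others.
-/

namespace Pool.Agent.Results.MP_375bfa_co.DenseSpheres

open Pool.Agent.W497.FS Pool.Agent.TH709.GG Pool.Agent.NH63.CD

/-- The Charney-Davis inequality for flag homology `(2 m - 1)`-spheres, and for all flag Eulerian
complexes of rank `2 m`, in which for some `s`, `1 ≤ s ≤ m - 1`, the links of the faces with `s`
vertices have on average at least `((m - 1 - s) n + s D) / (m - 1)` vertices; here `n` is the number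
of vertices, `D ≥ m (m + 3)`, and `D ≥ 2 ^ (m + 1) m ^ 2` unless `3 s ≤ 2 m`, or `3 s ≤ 2 m + 3` and
`s + m` is odd. -/
theorem result :
    (∀ (k : Type) [Field k] (n m s D : ℕ) (S : Finset (Finset (Fin n))), 1 ≤ s → s < m →
      Allowed m s D → IsFlagSphere k (2 * m) S → DenseLinks (numFaces S) m s D →
      0 ≤ (-1) ^ m * Pool.Agent.W497.FS.omega S) ∧
    (∀ (α : Type) (H : SimpleGraph α) (m s D : ℕ) (W : Finset α), 1 ≤ s → s < m →
      Allowed m s D → FlagEul H (2 * m) W → DenseLinks (numCliques H W) m s D →
      0 ≤ (-1) ^ m * ∑ σ ∈ cl H W, (-1 : ℚ) ^ σ.card / 2 ^ σ.card) := by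
  classical
  refine ⟨fun k _ n m s D S hs hsm hD hS h => sphere_cd hS hs hsm hD h,
    fun α H m s D W hs hsm hD hW h => ?_⟩
  have h1 := ep_lam ⟨hW.pure, hW.eul⟩ hs hsm hD h
  rw [lam, fe] at h1
  have h2 : ∀ σ ∈ cl H W, (-1 : ℚ) ^ σ.card / 2 ^ σ.card = (-1 / 2) ^ σ.card := fun σ _ => by
    rw [div_pow]
  rw [Finset.sum_congr rfl h2]
  exact h1

end Pool.Agent.Results.MP_375bfa_co.DenseSpheres
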