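import Pool.Agent.NH65.CX.Gap

/-!
# A quantitative form of the flag complex inequality with Coxeter edge weights

For a complex with Coxeter edge weights `w` for which all the groups `W_σ` are finite, `M σ` is the order of `W_σ`
(structure `CoxOrders`: the finite Coxeter groups enter by their classification, all types `A_n`, `B_n`, `D_n`, `E_6`,
`E_7`, `E_8`, `F_4`, `H_3`, `H_4`, `I_2(m)` and their products; no property of the orders is assumed). Let `ω` be the
weighted quantity `∑ (-1)^|σ| / M σ`, let `χ` be the right-angled one, `∑ (-1/2)^|σ|`, and let `evenFacets` be the number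
of the faces `T` with `2 m` vertices for which all the irreducible components of `W_T` have even rank.

The inequality `(-1)^m ω ≥ (-1)^m χ + evenFacets / 16^m` and `(-1)^m χ ≥ 0` are proved for the flag homology spheres
of dimension `2 m - 1 > 0` (over any field) each of whose join factors has dimension at most two, or few vertices, or
is in the class `Cls`, and for all complexes in the class `Cls` (spheres or not). So `(-1)^m ω > 0` as soon as there is
one facet with components of even rank. The class `Cls` (defined in `Pool.Agent.TH709.GG.ClsDef`) is built from the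
flag Eulerian complexes of rank at most three and those of rank four with `f₁ - 5 f₀ + 16 ≥ 0` by isomorphic copies,
links, joins, gluing along vertex links, inverse contractions of edges in no induced 4-cycle, edge subdivisions, and a
local rule.

The main new ingredient is part (3), a lower bound for the Charney–Davis quantities of the Coxeter complexes:
for a finite Coxeter group of rank `2 j` with irreducible components of even rank the number
`(-1)^j ∑ (-1/2)^|T \ U| / |W_U|`, `U ⊆ T`, is at least `16^(-j)`; this is the quantity of Charney and Davis of the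
Coxeter complex, up to the sign `(-1)^j`, divided by the order of the group. If a component has odd rank then the
number is zero. (For `A_n` these numbers are the coefficients of `2 tan (x/2)`, for `B_n` those of `sec (x/2)`, for `D_n`
those of `2 sec (x/2) - 2 - (x/2) tan (x/2)`.)
-/

set_option autoImplicit false

namespace Pool.Agent.Results.MP_375bfa_co.EvenRankFacets

open Pool.Agent.W497.FS Pool.Agent.TH709.GG Pool.Agent.NH65.CX

/-- **The quantitative inequality with Coxeter weights.** (1) Let `S` be a flag homology `(2 m - 1)`-sphere over a field,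
`m ≥ 1`, each of whose join factors `C`, of dimension `e - 1` say, has dimension at most two, or at most
`max (2 e + 6) (3 e)` vertices, or belongs to the class `Cls`. Let `w` be Coxeter edge weights with finite groups `W_σ`
of the orders `M σ`. Then `(-1)^m χ(S) ≥ 0` and `(-1)^m ω(S) ≥ (-1)^m χ(S) + evenFacets / 16^m`. (2) The same holds for
all flag complexes in the class `Cls (2 m)`. (3) Let `T` be a clique with Coxeter weights and orders. Then the number
`b(T) = ∑ (-1/2)^|T \ U| / M U`, `U ⊆ T`, vanishes if `W_T` has an irreducible component of odd rank, and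
`(-1)^j b(T) ≥ 16^(-j)` if `|T| = 2 j` and all the irreducible components have even rank. -/
theorem result :
    (∀ (k : Type) [Field k] (n m : ℕ) (S : Finset (Finset (Fin n))), 0 < m → IsFlagSphere k (2 * m) S →
      (∀ C : Finset (Fin n), IsFactor S C → (∀ F ∈ S, F ⊆ C → F.card ≤ 3) ∨
        (∃ F ∈ S, F ⊆ C ∧ C.card ≤ max (2 * F.card + 6) (3 * F.card)) ∨
        ∃ F ∈ S, F ⊆ C ∧ Cls F.card (Fin n) (skel S) C) →
      ∀ (w : Finset (Fin n) → ℕ) (M : Finset (Fin n) → ℚ), CoxOrders (skel S) w M →
      0 ≤ (-1) ^ m * ∑ σ ∈ S, (-1 / 2 : ℚ) ^ σ.card ∧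
      (-1) ^ m * ∑ σ ∈ S, (-1 / 2 : ℚ) ^ σ.card + evenFacets w (2 * m) S * (1 / 16) ^ m ≤
        (-1) ^ m * ∑ σ ∈ S, (-1) ^ σ.card / M σ) ∧
    (∀ (α : Type) [DecidableEq α] (H : SimpleGraph α) (m : ℕ) (W : Finset α), 0 < m → Cls (2 * m) α H W →
      ∀ (w : Finset α → ℕ) (M : Finset α → ℚ), CoxOrders H w M →
      0 ≤ (-1) ^ m * ∑ σ ∈ cl H W, (-1 / 2 : ℚ) ^ σ.card ∧
      (-1) ^ m * ∑ σ ∈ cl H W, (-1 / 2 : ℚ) ^ σ.card + evenFacets w (2 * m) (cl H W) * (1 / 16) ^ m ≤
        (-1) ^ m * ∑ σ ∈ cl H W, (-1) ^ σ.card / M σ) ∧
    (∀ (α : Type) [DecidableEq α] (H : SimpleGraph α) (w : Finset α → ℕ) (M : Finset α → ℚ), CoxOrders H w M →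
      ∀ T : Finset α, H.IsClique (T : Set α) →
      (OddComp w T → ∑ U ∈ T.powerset, (-1 / 2 : ℚ) ^ (T.card - U.card) / M U = 0) ∧
      (¬ OddComp w T → ∀ j, T.card = 2 * j →
        (1 / 16 : ℚ) ^ j ≤ (-1) ^ j * ∑ U ∈ T.powerset, (-1 / 2 : ℚ) ^ (T.card - U.card) / M U)) := by
  refine ⟨fun k _ n m S hm hS hC w M hN => gap_sphere hm hS hC hN, ?_, ?_⟩
  · intro α _ H m W hm h w M hN
    have h1 := gap hm h.tm.le (V11177.CW.CDL.of_tm h.tm) hN
    rw [lam, fe] at h1
    exact h1
  · intro α _ H w M hN T hT
    refine ⟨fun ho => ?_, fun ho j hj => hN.low T.card T rfl hT ho j hj⟩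
    obtain ⟨A, hA, hAo, hAw⟩ := ho
    have hg := hN.good T
    have hTm : T ∈ cl H T := mem_cl.2 ⟨Finset.Subset.refl _, fun x hx y hy hxy => hT hx hy hxy⟩
    have hAm : A ∈ cl H T := cl_of_subset hTm hA
    have hd : Disjoint A (T \ A) := Finset.disjoint_sdiff
    have hu : A ∪ (T \ A) = T := Finset.union_sdiff_of_subset hA
    have h2 := Y365.FS.bN_union hd M (fun U hU V hV => hN.mul U V
      (Finset.disjoint_of_subset_left hU (Finset.disjoint_of_subset_right hV hd))
      (hT.subset (by
        rw [← hu]
        exact Finset.coe_subset.2 (Finset.union_subset_union hU hV)))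
      (fun x hx y hy => by
        have hy' := Finset.mem_sdiff.1 (hV hy)
        exact hAw x (hU hx) y hy'.1 hy'.2))
    rw [hu, (hg A hAm).1 hAo, zero_mul] at h2
    exact h2

end Pool.Agent.Results.MP_375bfa_co.EvenRankFacets
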