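import Pool.Agent.NH65.CX.Quant
import Pool.Agent.NH65.CX.Tab

/-!
# The flag complex inequality with Coxeter edge weights: a Morse criterion for the links of the heavy faces

`HSph (2 * m) G`: the flag complex `S` of the finite graph `G` is a homology manifold with the homology of the
`(2 m - 1)`-sphere over the reals. `chiW G = ∑ (-1/2)^|T|` is the right-angled quantity, `omegaN G M = ∑ (-1)^|T| / M T`
(sums over the cliques `T` of `G`) the weighted one. `CoxOrders G w M` says that `w` is a system of Coxeter weights for
which all the groups `W_T` are finite and that `M T` is the order of `W_T`; the finite Coxeter groups enter by their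
classification and the known orders of their parabolic subgroups (no property of these numbers is assumed; the sign
of the Charney–Davis quantity of the Coxeter complexes is proved in `Pool/Agent/NH65/CX/NumD.lean`).

A face `T` is heavy if each of its vertices lies in an edge of `T` of weight at least `3`. It is decomposable here if it
has a part with an odd number of elements, all edges of which to the other elements of `T` have weight `2` (for
example, if `W_T` is a product of dihedral groups and of groups with an odd number of generators, at least one).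

The hypothesis on the links is `GoodLk`: the Morse criterion `HasSlopes` (for each degree `i` above the middle there is
a system of slopes on a finite set such that the ascending flag complexes at its points, relative to the cliques `S` of
flat directions, have no reduced homology in the degree `i - |S| - 1`), or membership in the class `MQ` (closed under
relative subdivisions, gluings, inverse edge contractions, joins, ..., containing the flag complexes properly coloured by
`d + 1` colours and embedded in the sphere of dimension `2 d`) or in the class `Cls`.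
-/

set_option autoImplicit false

namespace Pool.Agent.Results.MP_375bfa_co.MorseLinks

open Finset Pool.Agent.W907.SG Pool.Agent.NH65.CX Pool.Agent.R703.MO
open Pool.Agent.TH652.Above (HSph)
open Pool.Agent.R703.CW (omegaN Heavy omegaN_eq mem_cl_univ mono card_le_of_hsph)
open Pool.Agent.W497.FS (cl)
open Pool.Agent.TH709.GG (Cls)
open Y365.FS (ordM)

open Classical in
/-- **The inequality with Coxeter weights under a Morse criterion for the links.** Let the flag complex `S` of `G` be a
homology sphere of dimension `2 m - 1` over the reals, `m ≥ 1`, with Coxeter edge weights `w` and the orders `M T` of the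
finite groups `W_T`.

(1) Suppose that the link of each nonempty heavy face `T` with an even number `≤ 2 m - 4` of vertices satisfies
`GoodLk`, unless `T` has an odd part as in `OddPart`. Then
`(-1)^m ω(S) ≥ (-1)^m χ(S) + ∑ (-1)^m b(T)`, the sum over the facets `T` of `S`, where
`b(T) = ∑ (-1/2)^|T \ U| / M U`, over the subsets `U` of `T`, and `(-1)^m b(T) ≥ 0`. (If `W_T` is the product of the
dihedral groups of `m` disjoint edges of `T`, then `(-1)^m b(T)` is the product of the numbers `1/4 - 1/(2 w e)` for
these edges.)

(2) If moreover `S` itself satisfies the criterion, then `(-1)^m χ(S) ≥ 0`, so `(-1)^m ω(S) ≥ ∑ (-1)^m b(T) ≥ 0`.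

(3) Monotonicity: let `2 ≤ w ≤ w'` be two systems of weights, such that the edges of `w'`-weight at least `3` of each
triangle of `S` are at most one, and let the link of each nonempty heavy face for `w'` with an even number
`≤ 2 m - 4` of vertices satisfy `GoodLk`. Then `(-1)^m ω` for `w` is at most `(-1)^m ω` for `w'` (`ordM w T` is the
order `2^|T| ∏ (w e / 2)` of the Coxeter group). -/
theorem result (m : ℕ) (hm : 0 < m) (V : Type) [Fintype V] [LinearOrder V] (G : SimpleGraph V)
    (hS : HSph (2 * m) G) :
    (∀ (w : Finset V → ℕ) (M : Finset V → ℚ), CoxOrders G w M →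
      (∀ T : Finset V, G.IsClique (T : Set V) → T.Nonempty → Heavy w T → Even T.card → T.card + 4 ≤ 2 * m →
        GoodLk (2 * m) G T ∨ OddPart w T) →
      (∀ T : Finset V, G.IsClique (T : Set V) → T.card = 2 * m →
        0 ≤ (-1 : ℚ) ^ m * ∑ U ∈ T.powerset, (-1 / 2 : ℚ) ^ (T.card - U.card) / M U) ∧
      (-1 : ℚ) ^ m * chiW G + ∑ T ∈ univ.filter (fun T : Finset V => G.IsClique (T : Set V) ∧ T.card = 2 * m),
        (-1 : ℚ) ^ m * ∑ U ∈ T.powerset, (-1 / 2 : ℚ) ^ (T.card - U.card) / M U ≤ (-1) ^ m * omegaN G M) ∧
    ((HasSlopes (2 * m) G ∨ MQ (m + 1) G ∨ Cls (2 * m) V G Finset.univ) → 0 ≤ (-1 : ℚ) ^ m * chiW G) ∧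
    (∀ w w' : Finset V → ℕ, (∀ e, 2 ≤ w e) → (∀ e, w e ≤ w' e) →
      (∀ u v z, G.Adj u v → G.Adj u z → G.Adj v z → w' {u, v} = 2 ∨ w' {u, z} = 2) →
      (∀ T : Finset V, G.IsClique (T : Set V) → T.Nonempty → Heavy w' T → Even T.card → T.card + 4 ≤ 2 * m →
        GoodLk (2 * m) G T) →
      (-1) ^ m * omegaN G (ordM w) ≤ (-1) ^ m * omegaN G (ordM w')) := by
  refine ⟨fun w M hN hL => ?_, cd_mrs hS, fun w w' hw hww hmat hL => ?_⟩
  · have h1 := weighted_quant hm hS w M hN.orders fun T hT hh hne j l hj hl => by
      by_cases ho : OddPart w T
      · right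
        obtain ⟨A, hA, h2, h3⟩ := ho
        exact ⟨A, hA, h2, fun x hx y hy hyn => by
          have h4 := h3 x hx y hy hyn
          convert h4⟩
      · exact Or.inl (cd_mrs_link hS T hT hj hl fun h4 =>
          (hL T hT hne hh ⟨j, by omega⟩ h4).resolve_right ho)
    refine ⟨h1.1, ?_⟩
    have h2 : (cl G univ).filter (fun T => T.card = 2 * m) =
        univ.filter (fun T : Finset V => G.IsClique (T : Set V) ∧ T.card = 2 * m) := by
      ext T
      rw [mem_filter, mem_filter, mem_cl_univ]
      exact ⟨fun h => ⟨mem_univ _, h⟩, fun h => h.2⟩
    have h3 := h1.2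
    rw [h2] at h3
    exact h3
  · rw [omegaN_eq, omegaN_eq]
    refine mono m Finset.univ (fun T hT => card_le_of_hsph hS T ((mem_cl_univ T).1 hT)) w w' hw hww
      (fun T hT u hu v hv z hz h1 h2 h3 => ?_) ?_
    · have h4 := (mem_cl_univ T).1 hT
      exact hmat u v z (h4 hu hv h1) (h4 hu hz h2) (h4 hv hz h3)
    · intro T hT hne hh j l hj hl
      exact cd_mrs_link hS T ((mem_cl_univ T).1 hT) hj hl
        (fun h => hL T ((mem_cl_univ T).1 hT) hne hh ⟨j, by omega⟩ h)

end Pool.Agent.Results.MP_375bfa_co.MorseLinks
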